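import Pool.Agent.H75.L.W662.CB.Stmts

/-!
# Project CB: relative commutants of corners
-/

set_option autoImplicit false

open scoped InnerProductSpace

namespace Pool.Agent.W977.CB.D1

open Pool.Agent.W662.CB

variable {K : Type} [NormedAddCommGroup K] [InnerProductSpace ℂ K] [CompleteSpace K]

/-- the vectors `S p v`, `S ∈ A` -/
def gen (A : VonNeumannAlgebra K) (p : K →L[ℂ] K) : Set K :=
  {w | ∃ S : K →L[ℂ] K, S ∈ A ∧ ∃ v, w = S (p v)}

theorem maps_closure (A : VonNeumannAlgebra K) (p T : K →L[ℂ] K)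
    (hT : ∀ w ∈ gen A p, T w ∈ (Submodule.span ℂ (gen A p)).topologicalClosure) :
    ∀ w ∈ (Submodule.span ℂ (gen A p)).topologicalClosure,
      T w ∈ (Submodule.span ℂ (gen A p)).topologicalClosure := by
  have h1 : Submodule.span ℂ (gen A p) ≤
      ((Submodule.span ℂ (gen A p)).topologicalClosure).comap (T : K →ₗ[ℂ] K) :=
    Submodule.span_le.mpr hT
  have h2 : (Submodule.span ℂ (gen A p)).topologicalClosure ≤
      ((Submodule.span ℂ (gen A p)).topologicalClosure).comap (T : K →ₗ[ℂ] K) :=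
    Submodule.topologicalClosure_minimal _ h1
      (IsClosed.preimage T.continuous (Submodule.isClosed_topologicalClosure _))
  exact h2

theorem gen_closure (A : VonNeumannAlgebra K) (p : K →L[ℂ] K) {w : K} (hw : w ∈ gen A p) :
    w ∈ (Submodule.span ℂ (gen A p)).topologicalClosure :=
  Submodule.le_topologicalClosure _ (Submodule.subset_span hw)

theorem dense_gen (A B : VonNeumannAlgebra K) (hAB : ∀ x : K →L[ℂ] K, x ∈ A → x ∈ B)
    (hirr : ∀ Z : K →L[ℂ] K, Z ∈ B → (∀ S : K →L[ℂ] K, S ∈ A → S * Z = Z * S) →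
      ∃ c : ℂ, Z = c • 1)
    (p : K →L[ℂ] K) (hp : p ∈ A) (hp0 : p ≠ 0) :
    (Submodule.span ℂ (gen A p)).topologicalClosure = ⊤ := by
  have hz : IsStarProjection
      (Submodule.span ℂ (gen A p)).topologicalClosure.starProjection :=
    isStarProjection_starProjection
  have hrange : (Submodule.span ℂ (gen A p)).topologicalClosure.starProjection.range =
      (Submodule.span ℂ (gen A p)).topologicalClosure := by
    ext w
    constructor
    · rintro ⟨v, rfl⟩
      exact Submodule.starProjection_apply_mem _ v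
    · intro hw
      exact ⟨w, Submodule.starProjection_eq_self_iff.mpr hw⟩
  have hzB : (Submodule.span ℂ (gen A p)).topologicalClosure.starProjection ∈ B := by
    rw [VonNeumannAlgebra.IsStarProjection.mem_iff hz, hrange]
    intro y hy
    rw [VonNeumannAlgebra.mem_commutant_iff] at hy
    rw [Module.End.mem_invtSubmodule]
    refine maps_closure A p y ?_
    rintro w ⟨S, hS, v, rfl⟩
    apply gen_closure
    refine ⟨S, hS, y v, ?_⟩
    have h1 := congrArg (fun T : K →L[ℂ] K => T (p v)) (hy S (hAB S hS))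
    have h2 := congrArg (fun T : K →L[ℂ] K => T v) (hy p (hAB p hp))
    simp only [mul_apply_eq_comp] at h1 h2
    rw [← h1, ← h2]
  have hzA : (Submodule.span ℂ (gen A p)).topologicalClosure.starProjection ∈ A.commutant := by
    rw [VonNeumannAlgebra.IsStarProjection.mem_iff hz, hrange,
      VonNeumannAlgebra.commutant_commutant]
    intro y hy
    rw [Module.End.mem_invtSubmodule]
    refine maps_closure A p y ?_
    rintro w ⟨S, hS, v, rfl⟩
    exact gen_closure A p ⟨y * S, mul_mem hy hS, v, rfl⟩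
  obtain ⟨c, hc⟩ := hirr _ hzB (VonNeumannAlgebra.mem_commutant_iff.mp hzA)
  obtain ⟨v, hv⟩ : ∃ v, p v ≠ 0 := by
    by_contra hcon
    push Not at hcon
    exact hp0 (ContinuousLinearMap.ext hcon)
  have hpv : p v ∈ (Submodule.span ℂ (gen A p)).topologicalClosure :=
    gen_closure A p ⟨1, one_mem A, v, rfl⟩
  have h3 : (Submodule.span ℂ (gen A p)).topologicalClosure.starProjection (p v) = p v :=
    Submodule.starProjection_eq_self_iff.mpr hpv
  rw [hc] at h3
  have hc1 : c = 1 := by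
    have h4 : c • p v = (1 : ℂ) • p v := by
      rw [one_smul]
      exact h3
    exact smul_left_injective ℂ hv h4
  rw [Submodule.eq_top_iff']
  intro w
  rw [← Submodule.starProjection_eq_self_iff, hc, hc1, one_smul]
  rfl

theorem unitary_case (A B : VonNeumannAlgebra K) (hAB : ∀ x : K →L[ℂ] K, x ∈ A → x ∈ B)
    (hirr : ∀ Z : K →L[ℂ] K, Z ∈ B → (∀ S : K →L[ℂ] K, S ∈ A → S * Z = Z * S) →
      ∃ c : ℂ, Z = c • 1)
    (p : K →L[ℂ] K) (hp : p ∈ A) (hp0 : p ≠ 0) (hpp : p * p = p) (hps : star p = p)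
    (u : K →L[ℂ] K) (huB : u ∈ B) (hu : star u * u = 1)
    (hcomm : ∀ S : K →L[ℂ] K, S ∈ A → (p * S * p) * u = u * (p * S * p)) :
    ∃ c : ℂ, u * p = c • p := by
  have hup : p * u = u * p := by
    have h := hcomm 1 (one_mem A)
    rwa [mul_one, hpp] at h
  -- the two maps on the formal sums
  obtain ⟨e, he⟩ : ∃ e : (({S : K →L[ℂ] K // S ∈ A} × K) →₀ ℂ) →ₗ[ℂ] K,
      e = Finsupp.linearCombination ℂ (fun x => x.1.1 (p x.2)) := ⟨_, rfl⟩
  obtain ⟨f, hf⟩ : ∃ f : (({S : K →L[ℂ] K // S ∈ A} × K) →₀ ℂ) →ₗ[ℂ] K,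
      f = Finsupp.linearCombination ℂ (fun x => x.1.1 (u (p x.2))) := ⟨_, rfl⟩
  have hes : ∀ a c, e (Finsupp.single a c) = c • a.1.1 (p a.2) := by
    intro a c
    rw [he, Finsupp.linearCombination_single]
  have hfs : ∀ a c, f (Finsupp.single a c) = c • a.1.1 (u (p a.2)) := by
    intro a c
    rw [hf, Finsupp.linearCombination_single]
  have hadj : ∀ (T : K →L[ℂ] K) (x y : K), ⟪T x, y⟫_ℂ = ⟪x, star T y⟫_ℂ := by
    intro T x y
    rw [ContinuousLinearMap.star_eq_adjoint, ContinuousLinearMap.adjoint_inner_right]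
  have hbase : ∀ (S T : K →L[ℂ] K), S ∈ A → T ∈ A → ∀ v w : K,
      ⟪S (u (p v)), T (u (p w))⟫_ℂ = ⟪S (p v), T (p w)⟫_ℂ := by
    intro S T hS hT v w
    have hQ : star S * T ∈ A := mul_mem (star_mem hS) hT
    have hQc := hcomm _ hQ
    have hpu : ∀ x, p (u (p x)) = u (p x) := by
      intro x
      have h1 := congrArg (fun R : K →L[ℂ] K => R (p x)) hup
      have h2 := congrArg (fun R : K →L[ℂ] K => R x) hpp
      simp only [mul_apply_eq_comp] at h1 h2
      rw [h1, h2]
    have hpx : ∀ x, p (p x) = p x := fun x =>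
      congrArg (fun R : K →L[ℂ] K => R x) hpp
    have h3 : star u (u (p w)) = p w := congrArg (fun R : K →L[ℂ] K => R (p w)) hu
    have hQw : p (star S (T (p (u (p w))))) = u (p (star S (T (p (p w))))) := by
      have h4 := congrArg (fun R : K →L[ℂ] K => R (p w)) hQc
      exact h4
    have huu : ∀ x y, ⟪u x, u y⟫_ℂ = ⟪x, y⟫_ℂ := by
      intro x y
      rw [hadj]
      have h5 : star u (u y) = y := congrArg (fun R : K →L[ℂ] K => R y) hu
      rw [h5]
    calc ⟪S (u (p v)), T (u (p w))⟫_ℂ = ⟪u (p v), star S (T (u (p w)))⟫_ℂ := hadj _ _ _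
      _ = ⟪p (u (p v)), star S (T (p (u (p w))))⟫_ℂ := by rw [hpu, hpu]
      _ = ⟪u (p v), p (star S (T (p (u (p w)))))⟫_ℂ := by rw [hadj, hps]
      _ = ⟪u (p v), u (p (star S (T (p (p w)))))⟫_ℂ := by rw [hQw]
      _ = ⟪p v, p (star S (T (p (p w))))⟫_ℂ := huu _ _
      _ = ⟪p (p v), star S (T (p (p w)))⟫_ℂ := by rw [hadj p (p v), hps]
      _ = ⟪p v, star S (T (p w))⟫_ℂ := by rw [hpx, hpx]
      _ = ⟪S (p v), T (p w)⟫_ℂ := (hadj _ _ _).symm
  have hinner : ∀ x y, ⟪f x, f y⟫_ℂ = ⟪e x, e y⟫_ℂ := by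
    intro x
    induction x using Finsupp.induction_linear with
    | zero => intro y; rw [map_zero, map_zero, inner_zero_left, inner_zero_left]
    | add x₁ x₂ h₁ h₂ =>
      intro y
      rw [map_add, map_add, inner_add_left, inner_add_left, h₁, h₂]
    | single a c =>
      intro y
      induction y using Finsupp.induction_linear with
      | zero => rw [map_zero, map_zero, inner_zero_right, inner_zero_right]
      | add y₁ y₂ h₁ h₂ => rw [map_add, map_add, inner_add_right, inner_add_right, h₁, h₂]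
      | single b d =>
        rw [hes, hes, hfs, hfs, inner_smul_left, inner_smul_left, inner_smul_right,
          inner_smul_right, hbase a.1.1 b.1.1 a.1.2 b.1.2]
  have hnorm : ∃ C : ℝ, ∀ x, ‖f x‖ ≤ C * ‖e x‖ := by
    refine ⟨1, fun x => ?_⟩
    have h1 := hinner x x
    rw [inner_self_eq_norm_sq_to_K, inner_self_eq_norm_sq_to_K] at h1
    have h2 : ‖f x‖ ^ 2 = ‖e x‖ ^ 2 := by exact_mod_cast h1
    have h3 : ‖f x‖ = ‖e x‖ := by
      rwa [sq_eq_sq₀ (norm_nonneg _) (norm_nonneg _)] at h2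
    rw [h3, one_mul]
  have hgen : Set.range (fun x : {S : K →L[ℂ] K // S ∈ A} × K => x.1.1 (p x.2)) = gen A p := by
    ext w
    constructor
    · rintro ⟨⟨⟨S, hS⟩, v⟩, rfl⟩
      exact ⟨S, hS, v, rfl⟩
    · rintro ⟨S, hS, v, rfl⟩
      exact ⟨⟨⟨S, hS⟩, v⟩, rfl⟩
  have hdens : Dense (Submodule.span ℂ (gen A p) : Set K) :=
    Submodule.dense_iff_topologicalClosure_eq_top.mpr (dense_gen A B hAB hirr p hp hp0)
  have hdr : DenseRange e := by
    have h1 : Set.range e = (Submodule.span ℂ (gen A p) : Set K) := by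
      rw [← hgen, ← Finsupp.range_linearCombination, he]
      rfl
    unfold DenseRange
    rw [h1]
    exact hdens
  obtain ⟨R, hR⟩ : ∃ R : K →L[ℂ] K, ∀ x, R (e x) = f x :=
    ⟨f.extendOfNorm e, fun x => LinearMap.extendOfNorm_eq hdr hnorm x⟩
  have hR2 : ∀ (S : K →L[ℂ] K), S ∈ A → ∀ v, R (S (p v)) = S (u (p v)) := by
    intro S hS v
    have h1 := hR (Finsupp.single (⟨S, hS⟩, v) 1)
    rw [hes, hfs, one_smul, one_smul] at h1
    exact h1
  have hRA : ∀ T : K →L[ℂ] K, T ∈ A → T * R = R * T := by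
    intro T hT
    refine ContinuousLinearMap.ext_on hdens ?_
    rintro w ⟨S, hS, v, rfl⟩
    show T (R (S (p v))) = R (T (S (p v)))
    rw [hR2 S hS]
    exact (hR2 (T * S) (mul_mem hT hS) v).symm
  have hRB : R ∈ B := by
    rw [← VonNeumannAlgebra.commutant_commutant B, VonNeumannAlgebra.mem_commutant_iff]
    intro T hT
    rw [VonNeumannAlgebra.mem_commutant_iff] at hT
    have hc : ∀ b : K →L[ℂ] K, b ∈ B → ∀ x, T (b x) = b (T x) := fun b hb x =>
      (congrArg (fun X : K →L[ℂ] K => X x) (hT b hb)).symm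
    refine ContinuousLinearMap.ext_on hdens ?_
    rintro w ⟨S, hS, v, rfl⟩
    show T (R (S (p v))) = R (T (S (p v)))
    rw [hR2 S hS, hc S (hAB S hS), hc u huB, hc p (hAB p hp), hc S (hAB S hS),
      hc p (hAB p hp), hR2 S hS]
  obtain ⟨c, hc⟩ := hirr R hRB hRA
  refine ⟨c, ContinuousLinearMap.ext fun v => ?_⟩
  have h1 := hR2 1 (one_mem A) v
  rw [hc] at h1
  exact h1.symm

theorem d1 : S_D1 := by
  intro K _ _ _ A B hAB hirr p hp hpp hps Z hZB hZp hZA
  by_cases hp0 : p = 0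
  · refine ⟨0, ?_⟩
    rw [← hZp, hp0, mul_zero, smul_zero]
  obtain ⟨C, hC⟩ : ∃ C : StarSubalgebra ℂ (K →L[ℂ] K),
      C = StarSubalgebra.centralizer ℂ
        ({X : K →L[ℂ] K | ∃ S : K →L[ℂ] K, S ∈ A ∧ X = p * S * p} ∪
          (B.commutant : Set (K →L[ℂ] K))) := ⟨_, rfl⟩
  have hmem : ∀ X : K →L[ℂ] K, X ∈ C ↔ X ∈ B ∧ ∀ S : K →L[ℂ] K, S ∈ A →
      (p * S * p) * X = X * (p * S * p) := by
    intro X
    rw [hC, StarSubalgebra.mem_centralizer_iff]
    constructor
    · intro h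
      constructor
      · rw [← VonNeumannAlgebra.commutant_commutant B, VonNeumannAlgebra.mem_commutant_iff]
        intro g hg
        exact (h g (Or.inr hg)).1
      · intro S hS
        exact (h _ (Or.inl ⟨S, hS, rfl⟩)).1
    · rintro ⟨h1, h2⟩ g (⟨S, hS, rfl⟩ | hg)
      · refine ⟨h2 S hS, ?_⟩
        have h3 : star (p * S * p) = p * star S * p := by
          rw [star_mul, star_mul, hps, mul_assoc]
        rw [h3]
        exact h2 _ (star_mem hS)
      · have hg' : star g ∈ B.commutant := star_mem hg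
        constructor
        · exact (VonNeumannAlgebra.mem_commutant_iff.mp hg X h1).symm
        · exact (VonNeumannAlgebra.mem_commutant_iff.mp hg' X h1).symm
  have hcl : IsClosed (C : Set (K →L[ℂ] K)) := by
    rw [hC]
    exact Set.isClosed_centralizer _
  have hpSp : ∀ S : K →L[ℂ] K, p * (p * S * p) * p = p * S * p := by
    intro S
    rw [mul_assoc p S p, ← mul_assoc p p, hpp, mul_assoc p (S * p) p, mul_assoc S p p, hpp]
  have hZC : Z ∈ C := by
    rw [hmem]
    exact ⟨hZB, fun S hS => hZA _ (mul_mem (mul_mem hp hS) hp) (hpSp S)⟩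
  have hspan : (⟨Z, hZC⟩ : C) ∈ Submodule.span ℂ ((unitary C : Submonoid C) : Set C) := by
    rw [CStarAlgebra.span_unitary]
    exact Submodule.mem_top
  have hkey : ∃ c : ℂ, ((⟨Z, hZC⟩ : C) : K →L[ℂ] K) * p = c • p := by
    refine Submodule.span_induction (p := fun (x : C) _ => ∃ c : ℂ, (x : K →L[ℂ] K) * p = c • p)
      ?_ ?_ ?_ ?_ hspan
    · intro x hx
      have hx2 := (hmem (x : K →L[ℂ] K)).mp x.2
      have hx3 : star (x : K →L[ℂ] K) * (x : K →L[ℂ] K) = 1 :=
        congrArg (fun y : C => (y : K →L[ℂ] K)) (Unitary.mem_iff.mp hx).1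
      exact unitary_case A B hAB hirr p hp hp0 hpp hps x hx2.1 hx3 hx2.2
    · refine ⟨0, ?_⟩
      rw [zero_smul]
      exact zero_mul p
    · rintro x y _ _ ⟨c, hc⟩ ⟨d, hd⟩
      refine ⟨c + d, ?_⟩
      rw [add_smul, ← hc, ← hd]
      exact add_mul _ _ _
    · rintro a x _ ⟨c, hc⟩
      refine ⟨a * c, ?_⟩
      rw [mul_smul, ← hc]
      exact smul_mul_assoc a _ _
  obtain ⟨c, hc⟩ := hkey
  refine ⟨c, ?_⟩
  have h1 : Z * p = c • p := hc
  calc Z = p * Z * p := hZp.symm
    _ = p * (Z * p) := mul_assoc _ _ _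
    _ = p * (c • p) := by rw [h1]
    _ = c • (p * p) := mul_smul_comm c p p
    _ = c • p := by rw [hpp]

end Pool.Agent.W977.CB.D1
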